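import Mathlib

/-!
# Energy barrier of tensor product classical codes: the inequality
`Δ(δ_c) ≥ min(d_a E_b, E_a d_b)` is false.
-/

namespace Pool.Agent.Results.MP_998457_co.TensorBarrier

open scoped Kronecker

/-- The energy of a word: the number of violated checks. -/
def energy {m n : Type} [Fintype m] [Fintype n] (δ : Matrix m n (ZMod 2)) (x : n → ZMod 2) : ℕ :=
  hammingNorm (δ.mulVec x)

/-- There is a path of single bit flips from `0` to `x` all of whose words have energy at most
`M`. -/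
def PathBelow {m n : Type} [Fintype m] [Fintype n] (δ : Matrix m n (ZMod 2)) (M : ℕ)
    (x : n → ZMod 2) : Prop :=
  ∃ (F : ℕ) (p : ℕ → n → ZMod 2), p 0 = 0 ∧ p F = x ∧
    (∀ i < F, hammingDist (p i) (p (i + 1)) = 1) ∧ ∀ i ≤ F, energy δ (p i) ≤ M

/-- The energy barrier of a word: the least possible maximal energy along a path from `0`. -/
noncomputable def barrierOf {m n : Type} [Fintype m] [Fintype n] (δ : Matrix m n (ZMod 2))
    (x : n → ZMod 2) : ℕ :=
  sInf {M | PathBelow δ M x}

/-- The energy barrier of a code: the least energy barrier of a nonzero codeword. -/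
noncomputable def barrier {m n : Type} [Fintype m] [Fintype n] (δ : Matrix m n (ZMod 2)) : ℕ :=
  sInf {E | ∃ x : n → ZMod 2, δ.mulVec x = 0 ∧ x ≠ 0 ∧ E = barrierOf δ x}

/-- The minimum distance of a code: the least Hamming weight of a nonzero codeword. -/
noncomputable def minDist {m n : Type} [Fintype m] [Fintype n] (δ : Matrix m n (ZMod 2)) : ℕ :=
  sInf {d | ∃ x : n → ZMod 2, δ.mulVec x = 0 ∧ x ≠ 0 ∧ d = hammingNorm x}

/-- The parity-check matrix of the tensor product code: `δ_a ⊗ I` stacked on `I ⊗ δ_b`. -/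
def tensorCode {ma na mb nb : Type} [Fintype na] [Fintype nb] [DecidableEq na] [DecidableEq nb]
    (δa : Matrix ma na (ZMod 2)) (δb : Matrix mb nb (ZMod 2)) :
    Matrix ((ma × nb) ⊕ (na × mb)) (na × nb) (ZMod 2) :=
  Matrix.fromRows (δa ⊗ₖ (1 : Matrix nb nb (ZMod 2))) ((1 : Matrix na na (ZMod 2)) ⊗ₖ δb)

/-- The length two repetition code. -/
def da : Matrix (Fin 1) (Fin 2) (ZMod 2) := !![1, 1]

/-- The code of the graph `K_4` with a tail of four edges: the edge-vertex incidence matrix. -/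
def db : Matrix (Fin 10) (Fin 8) (ZMod 2) :=
  !![1, 1, 0, 0, 0, 0, 0, 0;
     1, 0, 1, 0, 0, 0, 0, 0;
     1, 0, 0, 1, 0, 0, 0, 0;
     0, 1, 1, 0, 0, 0, 0, 0;
     0, 1, 0, 1, 0, 0, 0, 0;
     0, 0, 1, 1, 0, 0, 0, 0;
     0, 0, 0, 1, 1, 0, 0, 0;
     0, 0, 0, 0, 1, 1, 0, 0;
     0, 0, 0, 0, 0, 1, 1, 0;
     0, 0, 0, 0, 0, 0, 1, 1]

/-- The time at which a bit of the `2 × 8` array is flipped. -/
def ord : Fin 2 → Fin 8 → ℕ :=
  ![![0, 1, 2, 3, 7, 8, 10, 11], ![4, 5, 6, 9, 12, 13, 14, 15]]

/-- The path. -/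
def pth (t : ℕ) : Fin 2 × Fin 8 → ZMod 2 := fun ij => if ord ij.1 ij.2 < t then 1 else 0

theorem pth_energy : ∀ t : Fin 17, energy (tensorCode da db) (pth t) ≤ 7 := by
  decide +kernel

theorem pth_step : ∀ t : Fin 16, hammingDist (pth t) (pth (t + 1 : ℕ)) = 1 := by
  decide +kernel

theorem db_ker : ∀ x : Fin 8 → ZMod 2, db.mulVec x = 0 → x = 0 ∨ x = 1 := by
  decide +kernel

theorem da_ker : ∀ x : Fin 2 → ZMod 2, da.mulVec x = 0 → x = 0 ∨ x = 1 := by
  decide +kernel

/-- The number of flipped bits in the `K_4` part. -/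
def cnt (x : Fin 8 → ZMod 2) : ℕ :=
  ((Finset.univ : Finset (Fin 8)).filter (fun i => i.val < 4 ∧ x i ≠ 0)).card

theorem db_energy : ∀ x : Fin 8 → ZMod 2, cnt x = 2 → 4 ≤ energy db x := by
  decide +kernel

theorem cnt_step (x y : Fin 8 → ZMod 2) : cnt y ≤ cnt x + hammingDist x y := by
  classical
  unfold cnt hammingDist
  refine le_trans (Finset.card_le_card ?_) (Finset.card_union_le _ _)
  intro i hi
  simp only [Finset.mem_filter, Finset.mem_univ, true_and, Finset.mem_union] at hi ⊢
  by_cases h : x i = y i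
  · left; exact ⟨hi.1, by rw [h]; exact hi.2⟩
  · right; exact h

theorem db_barrierOf : 4 ≤ barrierOf db 1 := by
  have hne : {M | PathBelow db M 1}.Nonempty := by
    refine ⟨10, 8, fun t i => if i.val < t then 1 else 0, ?_, ?_, ?_, ?_⟩
    · funext i; simp
    · funext i; simp
    · have : ∀ i : Fin 8, hammingDist
        ((fun j : Fin 8 => if j.val < i.val then (1 : ZMod 2) else 0))
        (fun j => if j.val < i.val + 1 then 1 else 0) = 1 := by decide +kernel
      intro i hi
      exact this ⟨i, hi⟩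
    · intro i _
      have := hammingNorm_le_card_fintype (x := db.mulVec (fun j : Fin 8 => if j.val < i then 1 else 0))
      simpa [energy] using this
  obtain ⟨F, p, h0, hF, hs, hE⟩ := Nat.sInf_mem hne
  change ∀ i ≤ F, energy db (p i) ≤ barrierOf db 1 at hE
  classical
  have hex : ∃ t, 2 ≤ cnt (p t) := ⟨F, by rw [hF]; decide +kernel⟩
  have hle : Nat.find hex ≤ F := Nat.find_min' hex (by rw [hF]; decide +kernel)
  have h2 := Nat.find_spec hex
  have hpos : Nat.find hex ≠ 0 := by
    intro h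
    rw [h, h0] at h2
    revert h2
    decide +kernel
  obtain ⟨t, ht⟩ := Nat.exists_eq_succ_of_ne_zero hpos
  have hlt : cnt (p t) < 2 := by
    have := Nat.find_min hex (m := t) (by omega)
    omega
  rw [ht] at h2 hle
  have h3 := cnt_step (p t) (p (t + 1))
  rw [hs t (by omega)] at h3
  have h4 : cnt (p (t + 1)) = 2 := by
    have : 2 ≤ cnt (p (t + 1)) := h2
    omega
  exact le_trans (db_energy _ h4) (hE _ hle)

theorem da_barrierOf : 1 ≤ barrierOf da 1 := by
  have hne : {M | PathBelow da M 1}.Nonempty := by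
    refine ⟨1, 2, fun t i => if i.val < t then 1 else 0, ?_, ?_, ?_, ?_⟩
    · funext i; simp
    · funext i
      have hi : i.val < 2 := i.isLt
      simp [hi]
    · have : ∀ i : Fin 2, hammingDist
        ((fun j : Fin 2 => if j.val < i.val then (1 : ZMod 2) else 0))
        (fun j => if j.val < i.val + 1 then 1 else 0) = 1 := by decide +kernel
      intro i hi
      exact this ⟨i, hi⟩
    · intro i _
      have := hammingNorm_le_card_fintype (x := da.mulVec (fun j : Fin 2 => if j.val < i then 1 else 0))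
      simpa [energy] using this
  obtain ⟨F, p, h0, hF, hs, hE⟩ := Nat.sInf_mem hne
  change ∀ i ≤ F, energy da (p i) ≤ barrierOf da 1 at hE
  have hF0 : 0 < F := by
    rcases Nat.eq_zero_or_pos F with h | h
    · subst h
      rw [h0] at hF
      exact absurd hF (by decide +kernel)
    · exact h
  have h1 := hs 0 hF0
  rw [h0] at h1
  have key : ∀ x : Fin 2 → ZMod 2, hammingDist 0 x = 1 → 1 ≤ energy da x := by decide +kernel
  exact le_trans (key _ h1) (hE 1 hF0)

theorem db_barrier : 4 ≤ barrier db := by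
  have hne : {E | ∃ x : Fin 8 → ZMod 2, db.mulVec x = 0 ∧ x ≠ 0 ∧ E = barrierOf db x}.Nonempty :=
    ⟨_, 1, by decide +kernel, by decide +kernel, rfl⟩
  obtain ⟨x, hx, hx0, hE⟩ := Nat.sInf_mem hne
  have : x = 1 := (db_ker x hx).resolve_left hx0
  rw [this] at hE
  unfold barrier
  rw [hE]
  exact db_barrierOf

theorem da_barrier : 1 ≤ barrier da := by
  have hne : {E | ∃ x : Fin 2 → ZMod 2, da.mulVec x = 0 ∧ x ≠ 0 ∧ E = barrierOf da x}.Nonempty :=
    ⟨_, 1, by decide +kernel, by decide +kernel, rfl⟩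
  obtain ⟨x, hx, hx0, hE⟩ := Nat.sInf_mem hne
  have : x = 1 := (da_ker x hx).resolve_left hx0
  rw [this] at hE
  unfold barrier
  rw [hE]
  exact da_barrierOf

theorem db_minDist : 8 ≤ minDist db := by
  have hne : {d | ∃ x : Fin 8 → ZMod 2, db.mulVec x = 0 ∧ x ≠ 0 ∧ d = hammingNorm x}.Nonempty :=
    ⟨_, 1, by decide +kernel, by decide +kernel, rfl⟩
  obtain ⟨x, hx, hx0, hE⟩ := Nat.sInf_mem hne
  have : x = 1 := (db_ker x hx).resolve_left hx0
  rw [this] at hE
  unfold minDist
  rw [hE]
  decide +kernel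

theorem da_minDist : 2 ≤ minDist da := by
  have hne : {d | ∃ x : Fin 2 → ZMod 2, da.mulVec x = 0 ∧ x ≠ 0 ∧ d = hammingNorm x}.Nonempty :=
    ⟨_, 1, by decide +kernel, by decide +kernel, rfl⟩
  obtain ⟨x, hx, hx0, hE⟩ := Nat.sInf_mem hne
  have : x = 1 := (da_ker x hx).resolve_left hx0
  rw [this] at hE
  unfold minDist
  rw [hE]
  decide +kernel

theorem tensor_barrier : barrier (tensorCode da db) ≤ 7 := by
  have hpath : PathBelow (tensorCode da db) 7 1 := by
    refine ⟨16, pth, ?_, ?_, ?_, ?_⟩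
    · funext ij; simp [pth]
    · decide +kernel
    · intro i hi; exact pth_step ⟨i, hi⟩
    · intro i hi; exact pth_energy ⟨i, by omega⟩
  have h1 : barrierOf (tensorCode da db) 1 ≤ 7 := Nat.sInf_le hpath
  refine le_trans (Nat.sInf_le ⟨1, by decide +kernel, by decide +kernel, rfl⟩) h1

/-- **The inequality `Δ(δ_c) ≥ min(d_a E_b, E_a d_b)` for the energy barrier of tensor product
classical codes fails**: there are parity-check matrices `δ_a` (one check on two bits) and `δ_b`
(ten checks on eight bits), both with nonzero codewords, whose tensor product code has energy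
barrier strictly below `min(d_a E_b, E_a d_b)`. -/
theorem result : ∃ (δa : Matrix (Fin 1) (Fin 2) (ZMod 2)) (δb : Matrix (Fin 10) (Fin 8) (ZMod 2)),
    (∃ x, x ≠ 0 ∧ δa.mulVec x = 0) ∧ (∃ x, x ≠ 0 ∧ δb.mulVec x = 0) ∧
    barrier (tensorCode δa δb) < min (minDist δa * barrier δb) (barrier δa * minDist δb) := by
  refine ⟨da, db, ⟨1, by decide +kernel, by decide +kernel⟩,
    ⟨1, by decide +kernel, by decide +kernel⟩, ?_⟩
  refine lt_of_le_of_lt tensor_barrier (lt_min ?_ ?_)
  · calc 7 < 2 * 4 := by norm_num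
      _ ≤ minDist da * barrier db := Nat.mul_le_mul da_minDist db_barrier
  · calc 7 < 1 * 8 := by norm_num
      _ ≤ barrier da * minDist db := Nat.mul_le_mul da_barrier db_minDist

end Pool.Agent.Results.MP_998457_co.TensorBarrier
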